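import Pool.Agent.V1164.HC.Four

/-!
# Haar measure need not minimise the mean cover time
-/

set_option autoImplicit false

namespace Pool.Agent.Results.MP_b215e8_pr.HaarNotOptimal

open MeasureTheory ProbabilityTheory Set Pool.Agent.V1164.HC

noncomputable section

/-- the law of one pair (waiting time, seed) -/
def rho (r : ℝ) (ν : Measure S4) : Measure (ℝ × S4) := (expMeasure r).prod ν

section

variable {r : ℝ} (hr : 0 < r) (ν : Measure S4) [IsProbabilityMeasure ν]

include hr in
lemma isProb_rho : IsProbabilityMeasure (rho r ν) := by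
  have := isProbabilityMeasure_expMeasure hr
  unfold rho
  infer_instance

lemma law_eq : law r ν = Measure.infinitePi fun _ => rho r ν := rfl

include hr in
lemma isProb_law : IsProbabilityMeasure (law r ν) := by
  have := isProb_rho hr ν
  rw [law_eq]
  infer_instance

include hr in
lemma map_pair {i j : ℕ} (hij : i ≠ j) :
    (law r ν).map (fun ω => (ω i, ω j)) = (rho r ν).prod (rho r ν) := by
  have := isProb_rho hr ν
  rw [law_eq]
  exact Measure.infinitePi_map_eval_prod (P := fun _ => rho r ν) hij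

include hr in
lemma map_one (i : ℕ) : (law r ν).map (fun ω => ω i) = rho r ν := by
  have := isProb_rho hr ν
  rw [law_eq]
  exact Measure.infinitePi_map_eval _ _

include hr in
lemma map_time (i : ℕ) : (law r ν).map (fun ω => (ω i).1) = expMeasure r := by
  have := isProbabilityMeasure_expMeasure hr
  have h1 : (fun ω : ℕ → ℝ × S4 => (ω i).1) = Prod.fst ∘ fun ω => ω i := rfl
  rw [h1, ← Measure.map_map measurable_fst (measurable_pi_apply i), map_one hr ν]
  unfold rho
  rw [Measure.map_fst_prod]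
  simp

include hr in
lemma mean_time (i : ℕ) : ∫⁻ ω, ENNReal.ofReal (ω i).1 ∂(law r ν) =
    ∫⁻ x, ENNReal.ofReal x ∂(expMeasure r) := by
  have hm : Measurable fun ω : ℕ → ℝ × S4 => (ω i).1 := measurable_fst.comp (measurable_pi_apply i)
  rw [← map_time hr ν i, lintegral_map ENNReal.measurable_ofReal hm]

include hr in
lemma ae_times : ∀ᵐ ω ∂(law r ν), ∀ i, 0 ≤ (ω i).1 := by
  rw [ae_all_iff]
  intro i
  have h1 := ae_nonneg hr
  rw [← map_time hr ν i] at h1
  exact ae_of_ae_map (measurable_fst.comp (measurable_pi_apply i)).aemeasurable h1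

include hr in
lemma integral_k (κ : S4 → S4 → ℝ) (hκ : ∀ s s', |κ s s'| ≤ 1) {h : ℝ → ℝ} (hm : Measurable h)
    (c : ℝ) (hb : ∀ x, |h x| ≤ c) :
    Integrable (fun ω => κ (ω 0).2 (ω 1).2 * h (ω 1).1) (law r ν) ∧
    ∫ ω, κ (ω 0).2 (ω 1).2 * h (ω 1).1 ∂(law r ν) =
      (∫ s, ∫ s', κ s s' ∂ν ∂ν) * ∫ x, h x ∂(expMeasure r) := by
  have := isProb_rho hr ν
  have := isProbabilityMeasure_expMeasure hr
  have := isProb_law hr ν
  have hc : 0 ≤ c := le_trans (abs_nonneg _) (hb 0)
  set F : (ℝ × S4) × (ℝ × S4) → ℝ := fun p => κ p.1.2 p.2.2 * h p.2.1 with hF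
  have hFm : Measurable F := by
    have h1 : Measurable fun q : S4 × S4 => κ q.1 q.2 := measurable_of_countable _
    exact (h1.comp ((measurable_snd.comp measurable_fst).prodMk
      (measurable_snd.comp measurable_snd))).mul
        (hm.comp (measurable_fst.comp measurable_snd))
  have hFb : ∀ p, |F p| ≤ c := by
    intro p
    simp only [hF, abs_mul]
    calc |κ p.1.2 p.2.2| * |h p.2.1| ≤ 1 * c :=
          mul_le_mul (hκ _ _) (hb _) (abs_nonneg _) zero_le_one
      _ = c := one_mul c
  have hFint : Integrable F ((rho r ν).prod (rho r ν)) :=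
    Integrable.of_bound hFm.aestronglyMeasurable c (Filter.Eventually.of_forall hFb)
  have hmeas : Measurable fun ω : ℕ → ℝ × S4 => (ω 0, ω 1) := by fun_prop
  have e1 : (fun ω : ℕ → ℝ × S4 => κ (ω 0).2 (ω 1).2 * h (ω 1).1) =
      F ∘ fun ω => (ω 0, ω 1) := rfl
  refine ⟨?_, ?_⟩
  · rw [e1]
    apply Integrable.comp_measurable _ hmeas
    rw [map_pair hr ν (by norm_num)]
    exact hFint
  · have e2 : ∫ ω, κ (ω 0).2 (ω 1).2 * h (ω 1).1 ∂(law r ν) =
        ∫ p, F p ∂((law r ν).map fun ω => (ω 0, ω 1)) := by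
      rw [integral_map hmeas.aemeasurable hFm.aestronglyMeasurable]
    rw [e2, map_pair hr ν (by norm_num), integral_prod _ hFint]
    have e3 : ∀ p : ℝ × S4, ∫ q, F (p, q) ∂(rho r ν) =
        (∫ x, h x ∂(expMeasure r)) * ∫ s', κ p.2 s' ∂ν := by
      intro p
      rw [rho, ← integral_prod_mul]
      refine integral_congr_ae (Filter.Eventually.of_forall fun q => ?_)
      simp only [hF]
      ring
    rw [integral_congr_ae (Filter.Eventually.of_forall e3), integral_const_mul, mul_comm]
    congr 1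
    have e4 := integral_prod_mul (μ := expMeasure r) (ν := ν) (fun _ => (1 : ℝ))
      (fun s => ∫ s', κ s s' ∂ν)
    simp only [one_mul, integral_const, probReal_univ, smul_eq_mul, mul_one] at e4
    exact e4

include hr in
lemma integral_ind :
    Integrable (fun ω => ind (ω 1).1 * ind (ω 2).1) (law r ν) ∧
    ∫ ω, ind (ω 1).1 * ind (ω 2).1 ∂(law r ν) = (expMeasure r).real (Iic 2) ^ 2 := by
  have := isProb_rho hr ν
  have := isProbabilityMeasure_expMeasure hr
  have := isProb_law hr ν
  have hind : Measurable ind := by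
    unfold ind
    exact Measurable.ite measurableSet_Iic measurable_const measurable_const
  have hindb : ∀ x, |ind x| ≤ 1 := by
    intro x
    rw [ind]
    split_ifs <;> simp
  have hfm : Measurable fun p : ℝ × S4 => ind p.1 := hind.comp measurable_fst
  have hmeas : Measurable fun ω : ℕ → ℝ × S4 => (ω 1, ω 2) := by fun_prop
  set F : (ℝ × S4) × (ℝ × S4) → ℝ := fun p => ind p.1.1 * ind p.2.1 with hF
  have hFm : Measurable F := (hfm.comp measurable_fst).mul (hfm.comp measurable_snd)
  have hFb : ∀ p, |F p| ≤ 1 := by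
    intro p
    simp only [hF, abs_mul]
    calc |ind p.1.1| * |ind p.2.1| ≤ 1 * 1 :=
          mul_le_mul (hindb _) (hindb _) (abs_nonneg _) zero_le_one
      _ = 1 := one_mul 1
  have hFint : Integrable F ((rho r ν).prod (rho r ν)) :=
    Integrable.of_bound hFm.aestronglyMeasurable 1 (Filter.Eventually.of_forall hFb)
  refine ⟨?_, ?_⟩
  · have e1 : (fun ω : ℕ → ℝ × S4 => ind (ω 1).1 * ind (ω 2).1) =
      F ∘ fun ω => (ω 1, ω 2) := rfl
    rw [e1]
    apply Integrable.comp_measurable _ hmeas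
    rw [map_pair hr ν (by norm_num)]
    exact hFint
  · have e2 : ∫ ω, ind (ω 1).1 * ind (ω 2).1 ∂(law r ν) =
        ∫ p, F p ∂((law r ν).map fun ω => (ω 1, ω 2)) := by
      rw [integral_map hmeas.aemeasurable hFm.aestronglyMeasurable]
    rw [e2, map_pair hr ν (by norm_num)]
    have e3 := integral_prod_mul (μ := rho r ν) (ν := rho r ν) (fun p => ind p.1)
      (fun p => ind p.1)
    rw [e3]
    have e4 : ∫ p, ind p.1 ∂(rho r ν) = (expMeasure r).real (Iic 2) := by
      have e5 := integral_prod_mul (μ := expMeasure r) (ν := ν) ind (fun _ => (1 : ℝ))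
      simp only [mul_one, integral_const, probReal_univ, smul_eq_mul] at e5
      rw [rho, e5]
      have e6 : ind = (Iic (2 : ℝ)).indicator fun _ => (1 : ℝ) := by
        funext x
        simp [ind, indicator]
      rw [e6, integral_indicator measurableSet_Iic]
      simp
    rw [e4, sq]

end

/-- the uniform distribution -/
def m : Measure S4 := (4⁻¹ : ENNReal) • Measure.count

/-- the two-point measure -/
def mu : Measure S4 := (2⁻¹ : ENNReal) • Measure.dirac 1 + (2⁻¹ : ENNReal) • Measure.dirac (g1 * g1)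

lemma card_S4 : Fintype.card S4 = 4 := by decide

instance : IsProbabilityMeasure m := by
  refine ⟨?_⟩
  rw [m, Measure.smul_apply, Measure.count_apply MeasurableSet.univ, encard_univ,
    ENat.card_eq_coe_fintype_card, card_S4, smul_eq_mul]
  exact ENNReal.inv_mul_cancel (by norm_num) (by norm_num)

instance : m.IsMulLeftInvariant := by
  refine ⟨fun g => ?_⟩
  rw [m, Measure.map_smul]
  congr 1
  exact map_mul_left_eq_self Measure.count g

instance : IsProbabilityMeasure mu := by
  refine ⟨?_⟩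
  rw [mu]
  simp [ENNReal.inv_two_add_inv_two]

lemma integral_m (f : S4 → ℝ) : ∫ s, f s ∂m = (1 / 4) * ∑ s, f s := by
  rw [m, integral_smul_measure, integral_count]
  simp

lemma integral_mu (f : S4 → ℝ) : ∫ s, f s ∂mu = (1 / 2) * (f 1 + f (g1 * g1)) := by
  rw [mu, integral_add_measure, integral_smul_measure, integral_smul_measure, integral_dirac,
    integral_dirac]
  · simp
    ring
  · exact Integrable.smul_measure (integrable_dirac (by simp)) (by simp)
  · exact Integrable.smul_measure (integrable_dirac (by simp)) (by simp)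

lemma k2_abs (s s' : S4) : |k2 s s'| ≤ 1 := by
  rw [k2]; split_ifs <;> simp

lemma k1_abs (s s' : S4) : |k1 s s'| ≤ 1 := by
  rw [k1]; split_ifs <;> simp

lemma k2_mu : ∫ s, ∫ s', k2 s s' ∂mu ∂mu = 1 / 2 := by
  have h1 : ∀ s, ∫ s', k2 s s' ∂mu = (1 / 2) * (k2 s 1 + k2 s (g1 * g1)) :=
    fun s => integral_mu _
  rw [integral_congr_ae (Filter.Eventually.of_forall h1), integral_mu]
  have e1 : k2 1 1 = 0 := by rw [k2, if_neg (by decide)]
  have e2 : k2 1 (g1 * g1) = 1 := by rw [k2, if_pos (by decide)]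
  have e3 : k2 (g1 * g1) 1 = 1 := by rw [k2, if_pos (by decide)]
  have e4 : k2 (g1 * g1) (g1 * g1) = 0 := by rw [k2, if_neg (by decide)]
  rw [e1, e2, e3, e4]
  norm_num

lemma k2_m : ∫ s, ∫ s', k2 s s' ∂m ∂m = 1 / 4 := by
  have h1 : ∀ s, ∫ s', k2 s s' ∂m = 1 / 4 := by
    intro s
    rw [integral_m]
    simp only [k2, Finset.sum_ite_eq', Finset.mem_univ, if_true]
    norm_num
  rw [integral_congr_ae (Filter.Eventually.of_forall h1)]
  simp

lemma k1_m : ∫ s, ∫ s', k1 s s' ∂m ∂m = 1 / 2 := by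
  have h1 : ∀ s, ∫ s', k1 s s' ∂m = 1 / 2 := by
    intro s
    rw [integral_m]
    simp only [k1, Finset.sum_boole]
    have h2 : ∀ s : S4, (Finset.univ.filter fun s' => s' = s * g1 ∨ s' = s * (g1 * g1 * g1)).card
        = 2 := by decide
    rw [h2]
    norm_num
  rw [integral_congr_ae (Filter.Eventually.of_forall h1)]
  simp

lemma measurable_gap : Measurable fun x => pos 2 x - pos 1 x :=
  (continuous_pos 2).measurable.sub (continuous_pos 1).measurable

lemma gap_nonneg (x : ℝ) : 0 ≤ pos 2 x - pos 1 x := by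
  rw [pos, pos, sub_nonneg]
  exact max_le_max_right _ (by linarith)

lemma gap_abs (x : ℝ) : |pos 2 x - pos 1 x| ≤ 2 := by
  rw [abs_of_nonneg (gap_nonneg x)]
  have h1 := pos_le (a := 2) (by norm_num) x
  have h2 := pos_nonneg 1 x
  linarith

lemma pos_one_abs (x : ℝ) : |pos 1 x| ≤ 1 := by
  rw [abs_of_nonneg (pos_nonneg 1 x)]
  exact pos_le (by norm_num) x

section

variable {r : ℝ} (hr : 0 < r)

include hr in
lemma integral_gap : ∫ x, (pos 2 x - pos 1 x) ∂(expMeasure r) =
    ∫ x, pos 2 x ∂(expMeasure r) - ∫ x, pos 1 x ∂(expMeasure r) := by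
  apply integral_sub
  · exact integrable_exp_of_bounded hr (continuous_pos 2).measurable 2 fun x => by
      rw [abs_of_nonneg (pos_nonneg 2 x)]
      exact pos_le (by norm_num) x
  · exact integrable_exp_of_bounded hr (continuous_pos 1).measurable 1 pos_one_abs

include hr in
lemma upper : meanCoverTime r 1 mu ≤ ∫⁻ x, ENNReal.ofReal x ∂(expMeasure r) +
    ENNReal.ofReal (2 - 1 / 2 * (∫ x, pos 2 x ∂(expMeasure r) - ∫ x, pos 1 x ∂(expMeasure r))) := by
  have := isProb_law hr mu
  obtain ⟨hi, he⟩ := integral_k hr mu k2 k2_abs measurable_gap 2 gap_abs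
  set G : (ℕ → ℝ × S4) → ℝ := fun ω =>
    2 - k2 (ω 0).2 (ω 1).2 * (pos 2 (ω 1).1 - pos 1 (ω 1).1) with hG
  have hGint : Integrable G (law r mu) := (integrable_const 2).sub hi
  have hG0 : ∀ ω, 0 ≤ G ω := by
    intro ω
    have h1 := gap_nonneg (ω 1).1
    have h2 := gap_abs (ω 1).1
    rw [abs_of_nonneg h1] at h2
    simp only [hG, k2]
    split_ifs <;> linarith
  have hGe : ∫ ω, G ω ∂(law r mu) =
      2 - 1 / 2 * (∫ x, pos 2 x ∂(expMeasure r) - ∫ x, pos 1 x ∂(expMeasure r)) := by
    simp only [hG]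
    rw [integral_sub (integrable_const 2) hi, he, k2_mu, integral_gap hr]
    simp
  have h1 : ∀ᵐ ω ∂(law r mu), ENNReal.ofReal (coverTime 1 ω) ≤
      ENNReal.ofReal (ω 0).1 + ENNReal.ofReal (G ω) := by
    filter_upwards [ae_times hr mu] with ω hω
    exact le_trans (ENNReal.ofReal_le_ofReal (cover_le hω)) ENNReal.ofReal_add_le
  have hm0 : Measurable fun ω : ℕ → ℝ × S4 => ENNReal.ofReal (ω 0).1 :=
    (measurable_fst.comp (measurable_pi_apply 0)).ennreal_ofReal
  calc meanCoverTime r 1 mu ≤ ∫⁻ ω, (ENNReal.ofReal (ω 0).1 + ENNReal.ofReal (G ω)) ∂(law r mu) :=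
        lintegral_mono_ae h1
    _ = ∫⁻ ω, ENNReal.ofReal (ω 0).1 ∂(law r mu) + ∫⁻ ω, ENNReal.ofReal (G ω) ∂(law r mu) :=
        lintegral_add_left hm0 _
    _ = ∫⁻ x, ENNReal.ofReal x ∂(expMeasure r) + ENNReal.ofReal (∫ ω, G ω ∂(law r mu)) := by
        rw [ofReal_integral_eq_lintegral_ofReal hGint (Filter.Eventually.of_forall hG0),
          mean_time hr mu 0]
    _ = _ := by rw [hGe]

include hr in
lemma lower : ∫⁻ x, ENNReal.ofReal x ∂(expMeasure r) +
    ENNReal.ofReal (2 - 1 / 4 * (∫ x, pos 2 x ∂(expMeasure r) - ∫ x, pos 1 x ∂(expMeasure r)) -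
      1 / 2 * ∫ x, pos 1 x ∂(expMeasure r) - 2 * (expMeasure r).real (Iic 2) ^ 2) ≤
    meanCoverTime r 1 m := by
  have := isProb_law hr m
  obtain ⟨hi, he⟩ := integral_k hr m k2 k2_abs measurable_gap 2 gap_abs
  obtain ⟨hi', he'⟩ := integral_k hr m k1 k1_abs (continuous_pos 1).measurable 1 pos_one_abs
  obtain ⟨hi2, he2⟩ := integral_ind hr m
  have hA : Integrable (fun ω => 2 - k2 (ω 0).2 (ω 1).2 * (pos 2 (ω 1).1 - pos 1 (ω 1).1))
      (law r m) := (integrable_const 2).sub hi
  have hB : Integrable (fun ω => 2 - k2 (ω 0).2 (ω 1).2 * (pos 2 (ω 1).1 - pos 1 (ω 1).1) -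
      k1 (ω 0).2 (ω 1).2 * pos 1 (ω 1).1) (law r m) := hA.sub hi'
  have hLint : Integrable low (law r m) := hB.sub (hi2.const_mul 2)
  have hLe : ∫ ω, low ω ∂(law r m) =
      2 - 1 / 4 * (∫ x, pos 2 x ∂(expMeasure r) - ∫ x, pos 1 x ∂(expMeasure r)) -
      1 / 2 * ∫ x, pos 1 x ∂(expMeasure r) - 2 * (expMeasure r).real (Iic 2) ^ 2 := by
    simp only [low]
    rw [integral_sub hB (hi2.const_mul 2), integral_sub hA hi',
      integral_sub (integrable_const 2) hi,
      integral_const_mul, he, he', he2, k2_m, k1_m, integral_gap hr]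
    simp
  have h1 : ∀ᵐ ω ∂(law r m), ENNReal.ofReal (ω 0).1 + ENNReal.ofReal (max (low ω) 0) ≤
      ENNReal.ofReal (coverTime 1 ω) := by
    filter_upwards [ae_times hr m] with ω hω
    rw [← ENNReal.ofReal_add (hω 0) (le_max_right _ _)]
    exact ENNReal.ofReal_le_ofReal (le_cover hω)
  have hm0 : Measurable fun ω : ℕ → ℝ × S4 => ENNReal.ofReal (ω 0).1 :=
    (measurable_fst.comp (measurable_pi_apply 0)).ennreal_ofReal
  have hmax : Integrable (fun ω => max (low ω) 0) (law r m) := hLint.pos_part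
  rw [← hLe]
  calc ∫⁻ x, ENNReal.ofReal x ∂(expMeasure r) + ENNReal.ofReal (∫ ω, low ω ∂(law r m))
      ≤ ∫⁻ x, ENNReal.ofReal x ∂(expMeasure r) +
          ENNReal.ofReal (∫ ω, max (low ω) 0 ∂(law r m)) :=
        add_le_add_right (ENNReal.ofReal_le_ofReal
          (integral_mono hLint hmax fun ω => le_max_left _ _)) _
    _ = ∫⁻ ω, ENNReal.ofReal (ω 0).1 ∂(law r m) +
          ∫⁻ ω, ENNReal.ofReal (max (low ω) 0) ∂(law r m) := by
        rw [ofReal_integral_eq_lintegral_ofReal hmax
          (Filter.Eventually.of_forall fun ω => le_max_right _ _), mean_time hr m 0]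
    _ = ∫⁻ ω, (ENNReal.ofReal (ω 0).1 + ENNReal.ofReal (max (low ω) 0)) ∂(law r m) :=
        (lintegral_add_left hm0 _).symm
    _ ≤ meanCoverTime r 1 m := lintegral_mono_ae h1

end

/-- Haar measure does not minimise the mean cover time: there are a compact group with a
translation-invariant metric, rates and a Borel probability measure `μ` whose mean cover time is
smaller than that of the Haar probability measure. -/
theorem result : ∃ (S : Type) (_ : Group S) (_ : MetricSpace S) (_ : MeasurableSpace S)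
    (_ : BorelSpace S) (_ : IsTopologicalGroup S) (_ : CompactSpace S),
    (∀ g x y : S, dist (g * x) (g * y) = dist x y) ∧ (∀ g x y : S, dist (x * g) (y * g) = dist x y) ∧
    ∃ (haar μ : Measure S) (_ : IsProbabilityMeasure haar) (_ : IsProbabilityMeasure μ)
      (_ : haar.IsMulLeftInvariant) (lam v : ℝ), 0 < lam ∧ 0 < v ∧
      meanCoverTime lam v μ < meanCoverTime lam v haar := by
  refine ⟨S4, inferInstance, inferInstance, inferInstance, inferInstance, inferInstance,
    inferInstance, dist_mul, fun g x y => by rw [mul_comm x g, mul_comm y g, dist_mul],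
    m, mu, inferInstance, inferInstance, inferInstance, 1 / 100, 1, by norm_num, by norm_num, ?_⟩
  have hr : (0 : ℝ) < 1 / 100 := by norm_num
  refine lt_of_le_of_lt (upper hr) (lt_of_lt_of_le ?_ (lower hr))
  have h1 := I_one_le hr
  have h2 := I_two_ge hr
  have h3 := q_le hr
  have h4 : 0 ≤ (expMeasure (1 / 100)).real (Iic 2) := measureReal_nonneg
  have h5 := Real.add_one_le_exp (-(2 * (1 / 100 : ℝ)))
  have h6 : 0 ≤ ∫ x, pos 1 x ∂(expMeasure (1 / 100)) :=
    integral_nonneg fun x => pos_nonneg 1 x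
  refine ENNReal.add_lt_add_left (mean_ne_top hr) ?_
  rw [ENNReal.ofReal_lt_ofReal_iff_of_nonneg]
  · nlinarith
  · have h7 : ∫ x, pos 2 x ∂(expMeasure (1 / 100)) ≤ 2 := by
      have := isProbabilityMeasure_expMeasure hr
      calc ∫ x, pos 2 x ∂(expMeasure (1 / 100)) ≤ ∫ _x, (2 : ℝ) ∂(expMeasure (1 / 100)) := by
            apply integral_mono
            · exact integrable_exp_of_bounded hr (continuous_pos 2).measurable 2 fun x => by
                rw [abs_of_nonneg (pos_nonneg 2 x)]
                exact pos_le (by norm_num) x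
            · exact integrable_const 2
            · exact fun x => pos_le (by norm_num) x
        _ = 2 := by rw [integral_const, probReal_univ, one_smul]
    linarith

end

end Pool.Agent.Results.MP_b215e8_pr.HaarNotOptimal
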